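import Pool.Agent.Lib.MP_baa34e_lc.H81.Defs

namespace Pool.Agent.Lib.MP_baa34e_lc.H81

open Cardinal Filter Set TopologicalSpace Topology

abbrev C := ℕ → Bool

section Fs
variable {X Y : Type} [TopologicalSpace X] [TopologicalSpace Y]

/-- `F_σ` sets -/
def Fs (S : Set X) : Prop := IsGδ Sᶜ

lemma Fs.of_closed {S : Set X} (h : IsClosed S) : Fs S := h.isOpen_compl.isGδ

lemma Fs.iUnion {ι : Sort*} [Countable ι] {S : ι → Set X} (h : ∀ i, Fs (S i)) :
    Fs (⋃ i, S i) := by
  unfold Fs
  rw [compl_iUnion]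
  exact IsGδ.iInter h

lemma Fs.inter {S T : Set X} (hS : Fs S) (hT : Fs T) : Fs (S ∩ T) := by
  unfold Fs
  rw [compl_inter]
  exact IsGδ.union hS hT

lemma Fs.preimage {f : X → Y} (hf : Continuous f) {T : Set Y} (hT : Fs T) : Fs (f ⁻¹' T) := by
  unfold Fs
  rw [← preimage_compl]
  exact IsGδ.preimage hf hT

lemma Fs.exists_nat {S : Set X} (h : Fs S) :
    ∃ F : ℕ → Set X, (∀ n, IsClosed (F n)) ∧ S = ⋃ n, F n := by
  obtain ⟨f, hf, he⟩ := isGδ_iff_eq_iInter_nat.1 h
  refine ⟨fun n => (f n)ᶜ, fun n => (hf n).isClosed_compl, ?_⟩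
  rw [← compl_iInter, ← he, compl_compl]

lemma Fs.preimage_on {f : X → Y} {P : Set X} (hP : IsClosed P) (hf : ContinuousOn f P)
    {T : Set Y} (hT : Fs T) : Fs (P ∩ f ⁻¹' T) := by
  obtain ⟨F, hF, rfl⟩ := hT.exists_nat
  rw [preimage_iUnion, inter_iUnion]
  exact Fs.iUnion fun n => Fs.of_closed (hf.preimage_isClosed_of_isClosed hP (hF n))

lemma Fs.lift {P : Set X} {T : Set P} (hT : Fs T) :
    ∃ G : Set X, Fs G ∧ Subtype.val ⁻¹' G = T := by
  obtain ⟨F, hF, rfl⟩ := hT.exists_nat
  have h : ∀ n, ∃ G : Set X, IsClosed G ∧ Subtype.val ⁻¹' G = F n := fun n =>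
    isClosed_induced_iff.1 (hF n)
  choose G hG hGF using h
  refine ⟨⋃ n, G n, Fs.iUnion fun n => Fs.of_closed (hG n), ?_⟩
  rw [preimage_iUnion]
  simp only [hGF]

/-- Q-spaces -/
def QSp (X : Type) [TopologicalSpace X] : Prop := ∀ S : Set X, Fs S

lemma qsp_iff (A : Set C) : IsQSet A ↔ QSp A := by
  constructor
  · intro h S; exact h _
  · intro h S
    have := h Sᶜ
    unfold Fs at this
    rwa [compl_compl] at this

lemma QSp.of_inj {f : X → Y} (hf : Continuous f) (hi : Function.Injective f) (h : QSp Y) :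
    QSp X := by
  intro S
  rw [← preimage_image_eq S hi]
  exact (h _).preimage hf

lemma QSp.sub {P T : Set X} (hq : QSp P) (hP : Fs P) (hT : T ⊆ P) : Fs T := by
  obtain ⟨G, hG, he⟩ := (hq (Subtype.val ⁻¹' T)).lift
  have : T = P ∩ G := by
    ext x
    constructor
    · intro hx
      have : (⟨x, hT hx⟩ : P) ∈ Subtype.val ⁻¹' G := he ▸ hx
      exact ⟨hT hx, this⟩
    · rintro ⟨hx, hxG⟩
      have : (⟨x, hx⟩ : P) ∈ Subtype.val ⁻¹' G := hxG
      rw [he] at this
      exact this
  rw [this]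
  exact hP.inter hG

/-- a universal `F_σ` set -/
lemma univ_Fs (X : Type) [TopologicalSpace X] [SecondCountableTopology X] :
    ∃ W : ℕ → Set (X × C), (∀ n, IsClosed (W n)) ∧
      ∀ S : Set X, Fs S → ∃ c : C, ∀ x, x ∈ S ↔ ∃ n, (x, c) ∈ W n := by
  classical
  obtain ⟨b, hb, -, hB⟩ := exists_countable_basis X
  obtain ⟨u, hu⟩ := (hb.insert ∅).exists_eq_range (insert_nonempty _ _)
  have huo : ∀ k, IsOpen (u k) := by
    intro k
    have : u k ∈ insert ∅ b := hu ▸ mem_range_self k
    rcases this with h | h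
    · rw [h]; exact isOpen_empty
    · exact hB.isOpen h
  refine ⟨fun n => {p | ∀ k, p.2 (Nat.pair n k) = true → p.1 ∉ u k}, fun n => ?_, ?_⟩
  · have : {p : X × C | ∀ k, p.2 (Nat.pair n k) = true → p.1 ∉ u k} =
        ⋂ k, ((fun p : X × C => p.2 (Nat.pair n k)) ⁻¹' {false} ∪ Prod.fst ⁻¹' (u k)ᶜ) := by
      ext p
      simp only [mem_ofPred_eq, mem_iInter, mem_union, mem_preimage, mem_singleton_iff,
        mem_compl_iff]
      refine forall_congr' fun k => ?_
      cases p.2 (Nat.pair n k) <;> simp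
    beta_reduce
    rw [this]
    refine isClosed_iInter fun k => IsClosed.union ?_ ?_
    · exact (isClosed_discrete _).preimage ((continuous_apply _).comp continuous_snd)
    · exact (huo k).isClosed_compl.preimage continuous_fst
  · intro S hS
    obtain ⟨F, hF, rfl⟩ := hS.exists_nat
    refine ⟨fun j => decide (Disjoint (u (Nat.unpair j).2) (F (Nat.unpair j).1)), fun x => ?_⟩
    rw [mem_iUnion]
    refine exists_congr fun n => ?_
    simp only [mem_ofPred_eq, Nat.unpair_pair, decide_eq_true_eq]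
    constructor
    · intro hx k hk hxk
      exact Set.disjoint_left.1 hk hxk hx
    · intro h
      by_contra hx
      obtain ⟨v, hv, hxv, hvF⟩ := hB.exists_subset_of_mem_open (u := (F n)ᶜ) hx
        (hF n).isOpen_compl
      have : v ∈ range u := hu ▸ mem_insert_of_mem _ hv
      obtain ⟨k, rfl⟩ := this
      exact h k (Set.disjoint_left.2 fun y hy => hvF hy) hxv

end Fs

/-- families of functions indexed by `X` are eventually dominated -/
def Bdd (X : Type) : Prop := ∀ g : X → ℕ → ℕ, ∃ h : ℕ → ℕ, ∀ x, ∀ᶠ k in atTop, g x k ≤ h k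

lemma Bdd.countable {X : Type} (hb : Bdd X) {N : Type} [Countable N] (i : X → N → ℕ) :
    ∃ g : N → ℕ, ∀ x, {σ | g σ < i x σ}.Finite := by
  classical
  obtain ⟨e, he⟩ := exists_injective_nat N
  obtain ⟨h, hh⟩ := hb fun x n => if hn : ∃ σ, e σ = n then i x hn.choose else 0
  refine ⟨fun σ => h (e σ), fun x => ?_⟩
  obtain ⟨k0, hk0⟩ := eventually_atTop.1 (hh x)
  refine ((finite_lt_nat k0).preimage he.injOn).subset fun σ hσ => ?_
  by_contra hlt
  have h1 := hk0 (e σ) (not_lt.1 hlt)
  have h2 : ∃ τ, e τ = e σ := ⟨σ, rfl⟩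
  rw [dif_pos h2, he h2.choose_spec] at h1
  exact absurd hσ (not_lt.2 h1)

/-- every map on a Q-space of size below the bounding number is continuous on the members of
an increasing closed cover -/
lemma sigma_cont {X : Type} [TopologicalSpace X] (hQ : QSp X) (hb : Bdd X) (f : X → C) :
    ∃ P : ℕ → Set X, Monotone P ∧ (∀ n, IsClosed (P n)) ∧ (∀ x, ∃ n, x ∈ P n) ∧
      ∀ n, ContinuousOn f (P n) := by
  have h1 : ∀ (k : ℕ) (b : Bool), ∃ F : ℕ → Set X, (∀ n, IsClosed (F n)) ∧
      {x | f x k = b} = ⋃ n, F n := fun k b => (hQ _).exists_nat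
  choose F hF hFe using h1
  have h2 : ∀ x k, ∃ j, x ∈ F k (f x k) j := by
    intro x k
    have : x ∈ {y | f y k = f x k} := rfl
    rw [hFe] at this
    exact mem_iUnion.1 this
  choose g hg using h2
  obtain ⟨h, hh⟩ := hb g
  let R : ℕ → ℕ → Bool → Set X := fun M k b => ⋃ j ∈ Finset.range (h k + M + 1), F k b j
  have hRc : ∀ M k b, IsClosed (R M k b) := fun M k b =>
    isClosed_biUnion_finset fun j _ => hF k b j
  have hRb : ∀ M k b, ∀ x ∈ R M k b, f x k = b := by
    intro M k b x hx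
    simp only [R, mem_iUnion] at hx
    obtain ⟨j, -, hj⟩ := hx
    have : x ∈ ⋃ n, F k b n := mem_iUnion.2 ⟨j, hj⟩
    rw [← hFe] at this
    exact this
  refine ⟨fun M => ⋂ k, (R M k true ∪ R M k false), ?_, ?_, ?_, ?_⟩
  · intro M M' hM
    have : ∀ k b, R M k b ⊆ R M' k b := by
      intro k b x hx
      simp only [R, mem_iUnion, Finset.mem_range] at hx ⊢
      obtain ⟨j, hj, hx⟩ := hx
      exact ⟨j, by omega, hx⟩
    exact iInter_mono fun k => union_subset_union (this k _) (this k _)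
  · intro M
    exact isClosed_iInter fun k => (hRc _ _ _).union (hRc _ _ _)
  · intro x
    obtain ⟨k0, hk0⟩ := eventually_atTop.1 (hh x)
    refine ⟨(Finset.range k0).sup (g x), mem_iInter.2 fun k => ?_⟩
    have hx : x ∈ R ((Finset.range k0).sup (g x)) k (f x k) := by
      simp only [R, mem_iUnion, Finset.mem_range]
      refine ⟨g x k, ?_, hg x k⟩
      by_cases hk : k < k0
      · have := Finset.le_sup (f := g x) (Finset.mem_range.2 hk)
        omega
      · have := hk0 k (not_lt.1 hk)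
        omega
    cases hfx : f x k
    · right; rwa [hfx] at hx
    · left; rwa [hfx] at hx
  · intro M
    rw [continuousOn_pi]
    intro k
    have hc : ContinuousOn (fun x => f x k) (R M k true ∪ R M k false) := by
      refine ContinuousOn.union_of_isClosed ?_ ?_ (hRc _ _ _) (hRc _ _ _)
      · exact continuousOn_const.congr fun x hx => hRb _ _ _ x hx
      · exact continuousOn_const.congr fun x hx => hRb _ _ _ x hx
    exact hc.mono (iInter_subset _ k)

lemma exists_cyl {U : Set C} (hU : IsOpen U) {x : C} (hx : x ∈ U) :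
    ∃ N : ℕ, ∀ y : C, (∀ i < N, y i = x i) → y ∈ U := by
  obtain ⟨I, u, h1, h2⟩ := isOpen_pi_iff.1 hU x hx
  refine ⟨I.sup id + 1, fun y hy => h2 fun i hi => ?_⟩
  have : i < I.sup id + 1 := Nat.lt_succ_of_le (Finset.le_sup (f := id) hi)
  rw [hy i this]
  exact (h1 i hi).2

/-! ### Q-sets and the bounding number -/

def cnt (x : C) (H : ℕ) : ℕ := ((Finset.range H).filter fun i => x i = true).card

def QQ : Set C := range fun s : Finset ℕ => fun i => decide (i ∈ s)

lemma cnt_mono (x : C) {H H' : ℕ} (h : H ≤ H') : cnt x H ≤ cnt x H' :=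
  Finset.card_le_card (Finset.filter_subset_filter _ (Finset.range_mono h))

lemma continuous_cnt (H : ℕ) : Continuous fun x : C => cnt x H := by
  have : (fun x : C => cnt x H) =
      fun x => ∑ i ∈ Finset.range H, (fun b : Bool => if b = true then 1 else 0) (x i) := by
    funext x
    simp only [cnt, Finset.card_filter]
  rw [this]
  exact continuous_finsetSum _ fun i _ =>
    (continuous_of_discreteTopology (f := fun b : Bool => if b = true then 1 else 0)).comp
      (continuous_apply i)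

lemma exists_cnt {x : C} (hx : x ∉ QQ) (n : ℕ) : ∃ H, n < cnt x H := by
  have hinf : {i | x i = true}.Infinite := by
    intro hfin
    apply hx
    refine ⟨hfin.toFinset, ?_⟩
    funext i
    simp
  obtain ⟨s, hs, hcard⟩ := hinf.exists_subset_card_eq (n + 1)
  refine ⟨s.sup id + 1, ?_⟩
  have : s ⊆ (Finset.range (s.sup id + 1)).filter fun i => x i = true := by
    intro i hi
    simp only [Finset.mem_filter, Finset.mem_range]
    exact ⟨Nat.lt_succ_of_le (Finset.le_sup (f := id) hi), hs hi⟩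
  have := Finset.card_le_card this
  unfold cnt
  omega

lemma compact_bound {K : Set C} (hK : IsClosed K) (hQ : ∀ x ∈ K, x ∉ QQ) (n : ℕ) :
    ∃ H, ∀ x ∈ K, n < cnt x H := by
  obtain ⟨H, hH⟩ := hK.isCompact.elim_directed_cover (fun H : ℕ => {x : C | n < cnt x H})
    (fun H => (isOpen_discrete {m : ℕ | n < m}).preimage (continuous_cnt H))
    (fun x hx => mem_iUnion.2 (exists_cnt (hQ x hx) n))
    (Monotone.directed_le fun H H' h x (hx : n < cnt x H) => hx.trans_le (cnt_mono x h))
  exact ⟨H, fun x hx => hH hx⟩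

lemma lt_of_cnt {a : ℕ → ℕ} (ha : StrictMono a) {x : C} (hx : ∀ i, x i = true → ∃ j, a j = i)
    {n H : ℕ} (h : n < cnt x H) : a n < H := by
  by_contra hcon
  have hsub : ((Finset.range H).filter fun i => x i = true) ⊆ (Finset.range n).image a := by
    intro i hi
    simp only [Finset.mem_filter, Finset.mem_range] at hi
    obtain ⟨j, rfl⟩ := hx i hi.2
    refine Finset.mem_image.2 ⟨j, Finset.mem_range.2 ?_, rfl⟩
    exact ha.lt_iff_lt.1 (by omega)
  have h1 := (Finset.card_le_card hsub).trans Finset.card_image_le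
  rw [Finset.card_range] at h1
  unfold cnt at h
  omega

lemma bdd_of_Q (X : Type) (h : ∀ B : Set C, #B ≤ #X + ℵ₀ → QSp B) : Bdd X := by
  classical
  intro g
  let a : X → ℕ → ℕ := fun x n => ∑ i ∈ Finset.range (n + 1), (g x i + 1)
  have ha : ∀ x, StrictMono (a x) := by
    intro x
    refine strictMono_nat_of_lt_succ fun n => ?_
    simp only [a]
    rw [Finset.sum_range_succ _ (n + 1)]
    omega
  have hga : ∀ x n, g x n ≤ a x n := by
    intro x n
    simp only [a]
    rw [Finset.sum_range_succ]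
    omega
  let p : X → C := fun x i => decide (∃ j, a x j = i)
  have hp : ∀ x, p x ∉ QQ := by
    rintro x ⟨s, hs⟩
    have h1 : range (a x) ⊆ (s : Set ℕ) := by
      rintro _ ⟨j, rfl⟩
      have := congrFun hs (a x j)
      simpa [p] using this
    exact infinite_range_of_injective (ha x).injective (s.finite_toSet.subset h1)
  have hcard : #(range p ∪ QQ : Set C) ≤ #X + ℵ₀ := by
    refine (mk_union_le _ _).trans (add_le_add mk_range_le ?_)
    exact mk_range_le.trans (mk_le_aleph0)
  obtain ⟨G, hG, he⟩ := (h _ hcard (Subtype.val ⁻¹' range p)).lift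
  obtain ⟨F, hF, rfl⟩ := hG.exists_nat
  have hFQ : ∀ n, ∀ x ∈ F n, x ∉ QQ := by
    intro n x hx hxQ
    have h1 : (⟨x, Or.inr hxQ⟩ : (range p ∪ QQ : Set C)) ∈ Subtype.val ⁻¹' ⋃ n, F n :=
      mem_iUnion.2 ⟨n, hx⟩
    rw [he] at h1
    obtain ⟨y, hy⟩ := h1
    exact hp y (hy ▸ hxQ)
  have hb : ∀ n k, ∃ H, ∀ x ∈ F n, k < cnt x H := fun n k => compact_bound (hF n) (hFQ n) k
  choose H hH using hb
  refine ⟨fun k => (Finset.range (k + 1)).sup fun n => H n k, fun x => ?_⟩
  have h1 : (⟨p x, Or.inl (mem_range_self x)⟩ : (range p ∪ QQ : Set C)) ∈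
      Subtype.val ⁻¹' range p := mem_range_self x
  rw [← he] at h1
  obtain ⟨n, hn⟩ := mem_iUnion.1 h1
  refine eventually_atTop.2 ⟨n, fun k hk => ?_⟩
  have h2 : a x k < H n k :=
    lt_of_cnt (ha x) (x := p x) (fun i hi => by simpa [p] using hi) (hH n k _ hn)
  have h3 : H n k ≤ (Finset.range (k + 1)).sup fun n => H n k :=
    Finset.le_sup (f := fun n => H n k) (Finset.mem_range.2 (by omega))
  exact (hga x k).trans (h2.le.trans h3)

end Pool.Agent.Lib.MP_baa34e_lc.H81
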