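import Pool.Agent.Lib.MP_baa34e_lc.H81.Tree

namespace Pool.Agent.Lib.MP_baa34e_lc.H81

open Cardinal Filter Set TopologicalSpace Topology

def KK (N : ℕ) : Set C := {y | y (2 * N) = true ∧ ∀ k, N < k → y (2 * k) = false}

def dec (N : ℕ) (y : C) : C := fun k => y (2 * (N + k) + 1)

def PP (t : ℕ × Finset ℕ) : Set C := {y | y ∈ KK t.1 ∧ ∀ i < 2 * t.1, (y i = true ↔ i ∈ t.2)}

lemma isClosed_bit (i : ℕ) (b : Bool) : IsClosed {y : C | y i = b} :=
  isClosed_eq (continuous_apply i) continuous_const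

lemma isClosed_PP (t : ℕ × Finset ℕ) : IsClosed (PP t) := by
  classical
  have : PP t = ({y : C | y (2 * t.1) = true} ∩ ⋂ k, ⋂ _ : t.1 < k, {y : C | y (2 * k) = false}) ∩
      ⋂ i, ⋂ _ : i < 2 * t.1, {y : C | y i = decide (i ∈ t.2)} := by
    ext y
    simp only [PP, KK, mem_ofPred_eq, mem_inter_iff, mem_iInter]
    refine and_congr Iff.rfl (forall_congr' fun i => forall_congr' fun _ => ?_)
    cases y i <;> simp
  rw [this]
  exact ((isClosed_bit _ _).inter
    (isClosed_iInter fun _ => isClosed_iInter fun _ => isClosed_bit _ _)).inter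
    (isClosed_iInter fun _ => isClosed_iInter fun _ => isClosed_bit _ _)

lemma KK_uniq {N N' : ℕ} {y : C} (h : y ∈ KK N) (h' : y ∈ KK N') : N = N' := by
  rcases lt_trichotomy N N' with hl | hl | hl
  · have := h.2 N' hl
    rw [h'.1] at this
    exact absurd this (by simp)
  · exact hl
  · have := h'.2 N hl
    rw [h.1] at this
    exact absurd this (by simp)

lemma dec_injOn (t : ℕ × Finset ℕ) : InjOn (dec t.1) (PP t) := by
  intro y hy y' hy' h
  funext i
  by_cases hi : i < 2 * t.1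
  · have := (hy.2 i hi).trans (hy'.2 i hi).symm
    cases h1 : y i <;> cases h2 : y' i <;> simp_all
  · rcases Nat.even_or_odd' i with ⟨k, rfl | rfl⟩
    · rcases (show k = t.1 ∨ t.1 < k by omega) with rfl | hk
      · rw [hy.1.1, hy'.1.1]
      · rw [hy.1.2 k hk, hy'.1.2 k hk]
    · have := congrFun h (k - t.1)
      simp only [dec] at this
      rwa [show t.1 + (k - t.1) = k by omega] at this

lemma exists_Y {μ : Cardinal.{0}} (hμ : ℵ₀ ≤ μ) {Y0 : Set C} (hY0 : #Y0 = μ) :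
    ∃ Y : Set C, KDense μ Y ∧ ∃ p : C → C, (∀ y ∈ Y, p y ∈ Y0 ∧ ∃ t, y ∈ PP t) ∧
      (∀ t, ContinuousOn p (PP t)) ∧ ∀ t, InjOn p (PP t) := by
  classical
  let p : C → C := fun y => if h : ∃ N, y ∈ KK N then dec h.choose y else y
  have hp : ∀ N, ∀ y ∈ KK N, p y = dec N y := by
    intro N y hy
    have h : ∃ N, y ∈ KK N := ⟨N, hy⟩
    simp only [p, dif_pos h]
    rw [KK_uniq h.choose_spec hy]
  have hinj : ∀ t, InjOn p (PP t) := by
    intro t y hy y' hy' h
    rw [hp _ _ hy.1, hp _ _ hy'.1] at h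
    exact dec_injOn t hy hy' h
  have hP : ∀ N, ∀ y ∈ KK N, ∃ t, y ∈ PP t := fun N y hy =>
    ⟨(N, (Finset.range (2 * N)).filter fun i => y i = true), hy, fun i hi => by
      simp only [Finset.mem_filter, Finset.mem_range]
      exact ⟨fun h => ⟨hi, h⟩, fun h => h.2⟩⟩
  let Y : Set C := {y | ∃ N, y ∈ KK N ∧ dec N y ∈ Y0}
  have hY : ∀ y ∈ Y, p y ∈ Y0 ∧ ∃ t, y ∈ PP t := by
    rintro y ⟨N, h1, h2⟩
    exact ⟨by rwa [hp N y h1], hP N y h1⟩
  refine ⟨Y, fun U hU hne => le_antisymm ?_ ?_, p, hY, fun t => ?_, hinj⟩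
  · refine (mk_le_mk_of_subset inter_subset_left).trans ?_
    have h1 : ∀ y : Y, ∃ t, y.1 ∈ PP t := fun y => (hY y y.2).2
    choose t ht using h1
    have : Function.Injective fun y : Y => ((⟨p y, (hY y y.2).1⟩ : Y0), t y) := by
      intro y y' h
      simp only [Prod.mk.injEq, Subtype.mk.injEq] at h
      exact Subtype.ext (hinj (t y) (ht y) (h.2 ▸ ht y') h.1)
    refine (mk_le_of_injective this).trans ?_
    rw [mk_prod, lift_id, lift_id, hY0]
    exact (mul_le_mul' le_rfl (mk_le_aleph0.trans hμ)).trans (mul_eq_self hμ).le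
  · obtain ⟨x, hx⟩ := hne
    obtain ⟨N, hN⟩ := exists_cyl hU hx
    let j : C → C := fun c i => if i < 2 * N then x i else if i % 2 = 0 then decide (i = 2 * N)
      else c (i / 2 - N)
    have hjK : ∀ c, j c ∈ KK N := by
      intro c
      refine ⟨by simp [j], fun k hk => ?_⟩
      have h1 : ¬ 2 * k < 2 * N := by omega
      have h2 : ¬ k = N := by omega
      simp [j, h1, h2]
    have hjd : ∀ c, dec N (j c) = c := by
      intro c
      funext k
      have h1 : ¬ 2 * (N + k) + 1 < 2 * N := by omega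
      have h2 : ¬ (2 * (N + k) + 1) % 2 = 0 := by omega
      have h3 : (2 * (N + k) + 1) / 2 - N = k := by omega
      simp only [dec, j, if_neg h1, if_neg h2, h3]
    have hjU : ∀ c, j c ∈ U := fun c => hN _ fun i hi => by
      have : i < 2 * N := by omega
      simp [j, this]
    rw [← hY0]
    refine mk_le_of_injective (f := fun c : Y0 =>
      (⟨j c, ⟨N, hjK c, by rw [hjd]; exact c.2⟩, hjU c⟩ : (Y ∩ U : Set C))) fun c c' h => ?_
    have h1 : j c = j c' := congrArg Subtype.val h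
    have h2 := congrArg (dec N) h1
    rw [hjd, hjd] at h2
    exact Subtype.ext h2
  · have : Continuous (dec t.1) := continuous_pi fun k => continuous_apply _
    exact this.continuousOn.congr fun y hy => hp _ _ hy.1

lemma KDense.union {κ : Cardinal.{0}} (hκ : ℵ₀ ≤ κ) {A N : Set C} (hA : KDense κ A)
    (hN : #N ≤ κ) : KDense κ (A ∪ N) := by
  intro U hU hne
  apply le_antisymm
  · calc #((A ∪ N) ∩ U : Set C) ≤ #(A ∪ N : Set C) := mk_le_mk_of_subset inter_subset_left
      _ ≤ #A + #N := mk_union_le _ _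
      _ ≤ κ := add_le_of_le hκ hA.card.le hN
  · rw [← hA U hU hne]
    exact mk_le_mk_of_subset (inter_subset_inter_left _ subset_union_left)

/-- under the weak Baumgartner principle every set of size at most `μ` maps into every set of
size `μ` by a map that is continuous and injective on the members of a countable closed cover -/
lemma exists_map {μ : Cardinal.{0}} (hμ : ℵ₀ ≤ μ) (hBA : BAminus μ) {A Y0 : Set C}
    (hA : #A ≤ μ) (hY0 : #Y0 = μ) :
    ∃ (p : A → C) (P : ℕ × Finset ℕ → Set A), (∀ t, IsClosed (P t)) ∧ (∀ a, ∃ t, a ∈ P t) ∧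
      (∀ a, p a ∈ Y0) ∧ (∀ t, ContinuousOn p (P t)) ∧ ∀ t, InjOn p (P t) := by
  obtain ⟨Y, hY, p, h1, h2, h3⟩ := exists_Y hμ hY0
  obtain ⟨h⟩ := hBA _ _ (hY.union hμ hA) hY
  let f : A → C := fun a => (h ⟨a, Or.inr a.2⟩ : C)
  have hf : Continuous f :=
    continuous_subtype_val.comp (h.continuous.comp (continuous_subtype_val.subtype_mk _))
  have hi : Function.Injective f := by
    intro a a' e
    have h1 := h.injective (Subtype.ext e)
    have h2 := congrArg Subtype.val h1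
    exact Subtype.ext h2
  have hfY : ∀ a, f a ∈ Y := fun a => (h ⟨a, Or.inr a.2⟩).2
  refine ⟨p ∘ f, fun t => f ⁻¹' PP t, fun t => (isClosed_PP t).preimage hf,
    fun a => (h1 _ (hfY a)).2, fun a => (h1 _ (hfY a)).1,
    fun t => (h2 t).comp hf.continuousOn fun _ ha => ha, fun t a ha a' ha' e => ?_⟩
  exact hi (h3 t ha ha' e)

lemma transfer {μ : Cardinal.{0}} (hμ : ℵ₀ ≤ μ) (hBA : BAminus μ) {A Y0 : Set C}
    (hA : #A ≤ μ) (hY0 : #Y0 = μ) (hq : QSp Y0) : QSp A := by
  obtain ⟨p, P, h1, h2, h3, h4, h5⟩ := exists_map hμ hBA hA hY0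
  let p' : A → Y0 := fun a => ⟨p a, h3 a⟩
  intro S
  have : S = ⋃ t, P t ∩ p' ⁻¹' (p' '' (S ∩ P t)) := by
    ext a
    simp only [mem_iUnion]
    constructor
    · intro ha
      obtain ⟨t, ht⟩ := h2 a
      exact ⟨t, ht, a, ⟨ha, ht⟩, rfl⟩
    · rintro ⟨t, ht, a', ha', e⟩
      rw [← h5 t ha'.2 ht (congrArg Subtype.val e)]
      exact ha'.1
  rw [this]
  refine Fs.iUnion fun t => Fs.preimage_on (h1 t) ?_ (hq _)
  exact IsInducing.subtypeVal.continuousOn_iff.2 (h4 t)

def il (c z : C) : C := fun i => if i % 2 = 0 then c (i / 2) else z (i / 2)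

def evn (y : C) : C := fun k => y (2 * k)

lemma evn_il (c z : C) : evn (il c z) = c := by
  funext k
  simp [evn, il]

lemma il_inj {c z c' z' : C} (h : il c z = il c' z') : z = z' := by
  funext k
  have := congrFun h (2 * k + 1)
  have h1 : ¬ (2 * k + 1) % 2 = 0 := by omega
  have h2 : (2 * k + 1) / 2 = k := by omega
  simpa only [il, if_neg h1, h2] using this

lemma continuous_evn : Continuous evn := continuous_pi fun _ => continuous_apply _

/-- coding and descent -/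
lemma descent {μ : Cardinal.{0}} (hμ : ℵ₀ < μ) (hBA : BAminus μ) {A : Set C} (hA : #A = μ)
    (S : Set A) (hS : ∀ T ⊆ S, #T < μ → ∃ F, Fs F ∧ T ⊆ F ∧ F ⊆ S) : Fs S := by
  classical
  let I := μ.ord.ToType
  have hI : #I = μ := mk_ord_toType μ
  have hIic : ∀ i : I, #(Iic i) < μ := by
    intro i
    have h1 : #(Iio i) < μ := mk_Iio_toType_ord_lt i
    rw [← Iio_insert]
    exact mk_insert_le.trans_lt (add_lt_of_lt hμ.le h1 (one_lt_aleph0.trans hμ))
  obtain ⟨z0⟩ : Nonempty (I ≃ A) := Cardinal.eq.1 (hI.trans hA.symm)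
  obtain ⟨W, hW, hWu⟩ := univ_Fs A
  have step : ∀ γ : A → I, (∀ i, #{a | γ a ≤ i} < μ) → ∃ q : A → I, (∀ i, #{a | q a ≤ i} < μ) ∧
      ∃ F, Fs F ∧ F ⊆ S ∧ ∀ a ∈ S, γ a ≤ q a → a ∈ F := by
    intro γ hγ
    have h1 : ∀ i, ∃ c : C, (∀ a ∈ S, γ a ≤ i → ∃ n, (a, c) ∈ W n) ∧
        ∀ a n, (a, c) ∈ W n → a ∈ S := by
      intro i
      obtain ⟨F, hF, k1, k2⟩ := hS (S ∩ {a | γ a ≤ i}) inter_subset_left
        ((mk_le_mk_of_subset inter_subset_right).trans_lt (hγ i))
      obtain ⟨c, hc⟩ := hWu F hF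
      exact ⟨c, fun a ha hi => (hc a).1 (k1 ⟨ha, hi⟩), fun a n h => k2 ((hc a).2 ⟨n, h⟩)⟩
    choose c hc1 hc2 using h1
    let y : I → C := fun i => il (c i) (z0 i)
    have hy : Function.Injective y := fun i j h => z0.injective (Subtype.ext (il_inj h))
    obtain ⟨p, P, k1, k2, k3, k4, k5⟩ :=
      exists_map hμ.le hBA hA.le ((mk_range_eq y hy).trans hI)
    choose q hq using k3
    choose t ht using k2
    refine ⟨q, fun i => ?_, ⋃ s, ⋃ n, P s ∩ (fun a => (a, evn (p a))) ⁻¹' W n, ?_, ?_, ?_⟩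
    · have : Function.Injective fun a : {a | q a ≤ i} => ((⟨q a, a.2⟩ : Iic i), t a) := by
        intro a a' h
        simp only [Prod.mk.injEq, Subtype.mk.injEq] at h
        refine Subtype.ext (k5 (t a) (ht a) (h.2 ▸ ht a') ?_)
        rw [← hq, ← hq, h.1]
      refine (mk_le_of_injective this).trans_lt ?_
      rw [mk_prod, lift_id, lift_id]
      exact mul_lt_of_lt hμ.le (hIic i) (mk_le_aleph0.trans_lt hμ)
    · refine Fs.iUnion fun s => Fs.iUnion fun n => Fs.preimage_on (k1 s) ?_ (Fs.of_closed (hW n))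
      exact continuousOn_id.prodMk (continuous_evn.comp_continuousOn (k4 s))
    · intro a ha
      simp only [mem_iUnion] at ha
      obtain ⟨s, n, -, ha⟩ := ha
      change (a, evn (p a)) ∈ W n at ha
      rw [← hq, evn_il] at ha
      exact hc2 _ a n ha
    · intro a ha hle
      obtain ⟨n, hn⟩ := hc1 (q a) a ha hle
      simp only [mem_iUnion]
      refine ⟨t a, n, ht a, ?_⟩
      change (a, evn (p a)) ∈ W n
      rwa [← hq, evn_il]
  choose q hq F hF1 hF2 hF3 using step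
  let G := {γ : A → I // ∀ i, #{a | γ a ≤ i} < μ}
  have h0 : ∀ i, #{a | z0.symm a ≤ i} < μ := by
    intro i
    refine lt_of_le_of_lt ?_ (hIic i)
    exact mk_le_of_injective (f := fun a : {a | z0.symm a ≤ i} => (⟨z0.symm a, a.2⟩ : Iic i))
      fun a a' h => Subtype.ext (z0.symm.injective (congrArg Subtype.val h))
  let nxt : G → G := fun γ => ⟨fun a => min (γ.1 a) (q γ.1 γ.2 a), fun i => by
    have : {a | min (γ.1 a) (q γ.1 γ.2 a) ≤ i} = {a | γ.1 a ≤ i} ∪ {a | q γ.1 γ.2 a ≤ i} := by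
      ext a; simp
    rw [this]
    exact (mk_union_le _ _).trans_lt (add_lt_of_lt hμ.le (γ.2 i) (hq _ _ i))⟩
  let γ : ℕ → G := fun n => nxt^[n] ⟨z0.symm, h0⟩
  have hγ : ∀ n, γ (n + 1) = nxt (γ n) := fun n => Function.iterate_succ_apply' _ _ _
  have : S = ⋃ n, F (γ n).1 (γ n).2 := by
    refine Subset.antisymm (fun a ha => ?_) (iUnion_subset fun n => hF2 _ _)
    obtain ⟨_, ⟨n, rfl⟩, hn⟩ := (wellFounded_lt (α := I)).has_min (range fun n => (γ n).1 a)
      (range_nonempty _)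
    refine mem_iUnion.2 ⟨n, hF3 _ _ a ha ?_⟩
    by_contra hlt
    refine hn _ ⟨n + 1, rfl⟩ ?_
    change (γ (n + 1)).1 a < (γ n).1 a
    rw [hγ]
    exact (min_le_right _ _).trans_lt (not_le.1 hlt)
  rw [this]
  exact Fs.iUnion fun n => hF1 _ _

end Pool.Agent.Lib.MP_baa34e_lc.H81
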