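import Mathlib

namespace Pool.Agent.Lib.MP_baa34e_lc.H81

/-- `A` meets every nonempty open subset of the Cantor space in exactly `κ` points. -/
def KDense (κ : Cardinal.{0}) (A : Set (ℕ → Bool)) : Prop :=
  ∀ U : Set (ℕ → Bool), IsOpen U → U.Nonempty → Cardinal.mk (A ∩ U : Set (ℕ → Bool)) = κ

/-- The weak Baumgartner principle for the Cantor space: any two `κ`-dense sets are
homeomorphic as subspaces. -/
def BAminus (κ : Cardinal.{0}) : Prop :=
  ∀ A B : Set (ℕ → Bool), KDense κ A → KDense κ B → Nonempty (A ≃ₜ B)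

/-- `A` is a Q-set: every subset of the subspace `A` is a (relative) `G_δ`. -/
def IsQSet (A : Set (ℕ → Bool)) : Prop := ∀ S : Set A, IsGδ S

/-- The least size of a subset of the Cantor space that is not a Q-set. -/
noncomputable def q0 : Cardinal.{0} :=
  sInf {c | ∃ A : Set (ℕ → Bool), Cardinal.mk A = c ∧ ¬ IsQSet A}

end Pool.Agent.Lib.MP_baa34e_lc.H81
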