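import Pool.Agent.Lib.MP_baa34e_lc.H81.Code

namespace Pool.Agent.Lib.MP_baa34e_lc.H81

open Cardinal Filter Set TopologicalSpace Topology

lemma qsp_fibres {X L : Type} [TopologicalSpace X] [SecondCountableTopology X]
    [TopologicalSpace L] {π : X → L} (hπ : Continuous π) (hL : QSp L) (hb : Bdd L)
    (hf : ∀ l, QSp (π ⁻¹' {l})) : QSp X := by
  intro S
  obtain ⟨W, hW, hWu⟩ := univ_Fs X
  have h1 : ∀ l, ∃ c : C, ∀ x, π x = l → (x ∈ S ↔ ∃ n, (x, c) ∈ W n) := by
    intro l
    obtain ⟨G, hG, he⟩ := (hf l (Subtype.val ⁻¹' S)).lift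
    obtain ⟨c, hc⟩ := hWu G hG
    refine ⟨c, fun x hx => ?_⟩
    rw [← hc]
    exact (Set.ext_iff.1 he ⟨x, hx⟩).symm
  choose c hc using h1
  obtain ⟨P, -, p2, p3, p4⟩ := sigma_cont hL hb c
  have : S = ⋃ m, ⋃ n, π ⁻¹' P m ∩ (fun x => (x, c (π x))) ⁻¹' W n := by
    ext x
    simp only [mem_iUnion]
    constructor
    · intro hx
      obtain ⟨m, hm⟩ := p3 (π x)
      obtain ⟨n, hn⟩ := (hc _ x rfl).1 hx
      exact ⟨m, n, hm, hn⟩
    · rintro ⟨m, n, -, hn⟩
      exact (hc _ x rfl).2 ⟨n, hn⟩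
  rw [this]
  refine Fs.iUnion fun m => Fs.iUnion fun n =>
    Fs.preimage_on ((p2 m).preimage hπ) ?_ (Fs.of_closed (hW n))
  exact continuousOn_id.prodMk ((p4 m).comp hπ.continuousOn fun _ hx => hx)

lemma exists_chain {I : Type} [LinearOrder I] [WellFoundedLT I] (hb : ∀ i : I, Bdd (Iio i)) :
    ∃ f : I → ℕ → ℕ, ∀ i j, j < i → ∀ᶠ n in atTop, f j n < f i n := by
  choose B hB using hb
  let G : (i : I) → ((j : I) → j < i → ℕ → ℕ) → ℕ → ℕ :=
    fun i g n => B i (fun j => g j.1 j.2) n + 1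
  refine ⟨(wellFounded_lt (α := I)).fix G, fun i j hj => ?_⟩
  rw [(wellFounded_lt (α := I)).fix_eq G i]
  filter_upwards [hB i (fun j => (wellFounded_lt (α := I)).fix G j.1) ⟨j, hj⟩] with n hn
  exact Nat.lt_succ_of_le hn

lemma qsp_small {μ : Cardinal.{0}} (hQ : ∀ B : Set C, #B < μ → QSp B) {X : Type}
    [TopologicalSpace X] {e : X → C} (he : Continuous e) (hi : Function.Injective e)
    (hX : #X < μ) : QSp X :=
  QSp.of_inj (f := rangeFactorization e) (he.subtype_mk _)
    (fun _ _ h => hi (congrArg Subtype.val h)) (hQ _ (mk_range_le.trans_lt hX))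

theorem exists_Q {μ : Cardinal.{0}} (hμ : ℵ₀ < μ) (hc : μ ≤ #C) (hBA : BAminus μ)
    (hQ : ∀ B : Set C, #B < μ → QSp B) : ∃ A : Set C, #A = μ ∧ QSp A := by
  classical
  let I := μ.ord.ToType
  have hI : #I = μ := mk_ord_toType μ
  have hIio : ∀ i : I, #(Iio i) < μ := fun i => mk_Iio_toType_ord_lt i
  have hIic : ∀ i : I, #(Iic i) < μ := by
    intro i
    rw [← Iio_insert]
    exact mk_insert_le.trans_lt (add_lt_of_lt hμ.le (hIio i) (one_lt_aleph0.trans hμ))
  have hB : ∀ X : Type, #X < μ → Bdd X := fun X hX =>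
    bdd_of_Q X fun B h => hQ B (h.trans_lt (add_lt_of_lt hμ.le hX hμ))
  by_cases hreg : ∀ T : Set I, #T < μ → ∃ i, ∀ j ∈ T, j ≤ i
  · obtain ⟨f, hf⟩ := exists_chain fun i => hB _ (hIio i)
    let a : I → C := fun i k => decide ((Nat.unpair k).2 < f i (Nat.unpair k).1)
    have ha : ∀ i n m, a i (Nat.pair n m) = false ↔ f i n ≤ m := by
      intro i n m
      simp [a]
    have hle : ∀ i j, (∃ N, ∀ n, N ≤ n → a j (Nat.pair n (f i n)) = false) ↔ j ≤ i := by
      intro i j
      simp only [ha]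
      rw [← eventually_atTop]
      constructor
      · intro h
        by_contra hlt
        obtain ⟨n, h1, h2⟩ := (h.and (hf j i (not_le.1 hlt))).exists
        omega
      · intro h
        rcases h.lt_or_eq with h | rfl
        · exact (hf i j h).mono fun _ h => h.le
        · exact Eventually.of_forall fun _ => le_rfl
    have hai : Function.Injective a := by
      intro i j h
      apply le_antisymm
      · rw [← hle, h, hle]
      · rw [← hle, ← h, hle]
    have hA : #(range a) = μ := (mk_range_eq a hai).trans hI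
    refine ⟨range a, hA, fun S => descent hμ hBA hA S fun T hTS hT => ?_⟩
    have hidx : ∀ x : range a, ∃ i, a i = x := fun x => x.2
    choose idx hidx using hidx
    obtain ⟨i, hi⟩ := hreg (idx '' T) (mk_image_le.trans_lt hT)
    let F : Set (range a) := {x | idx x ≤ i}
    have hF : Fs F := by
      have : F = ⋃ N, ⋂ n, ⋂ _ : N ≤ n,
          Subtype.val ⁻¹' {y : C | y (Nat.pair n (f i n)) = false} := by
        ext x
        simp only [F, mem_ofPred_eq, mem_iUnion, mem_iInter, mem_preimage]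
        rw [← hle, hidx]
      rw [this]
      exact Fs.iUnion fun N => Fs.of_closed (isClosed_iInter fun n => isClosed_iInter fun _ =>
        (isClosed_bit _ _).preimage continuous_subtype_val)
    have hFc : #F < μ := by
      refine lt_of_le_of_lt ?_ (hIic i)
      refine mk_le_of_injective (f := fun x : F => (⟨idx x, x.2⟩ : Iic i)) fun x x' h => ?_
      have h1 : idx x = idx x' := congrArg Subtype.val h
      refine Subtype.ext (Subtype.ext ?_)
      rw [← hidx, ← hidx, h1]
    have hFq : QSp F := qsp_small hQ (e := fun x : F => (x.1.1 : C))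
      (continuous_subtype_val.comp continuous_subtype_val)
      (fun _ _ h => Subtype.ext (Subtype.ext h)) hFc
    exact ⟨T, hFq.sub hF fun x hx => hi _ ⟨x, hx, rfl⟩, Subset.rfl, hTS⟩
  · push Not at hreg
    obtain ⟨T, hT, hTu⟩ := hreg
    choose t ht1 ht2 using hTu
    obtain ⟨z⟩ : Nonempty (I ↪ C) := (Cardinal.le_def _ _).1 (hI.le.trans hc)
    let a : I → C := fun j => il (z (t j)) (z j)
    have hai : Function.Injective a := fun i j h => z.injective (il_inj h)
    have hA : #(range a) = μ := (mk_range_eq a hai).trans hI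
    have hidx : ∀ x : range a, ∃ i, a i = x := fun x => x.2
    choose idx hidx using hidx
    have hev : ∀ x : range a, evn x = z (t (idx x)) := fun x => by rw [← hidx, evn_il]
    let π : range a → z '' T := fun x => ⟨evn x, t (idx x), ht1 _, (hev x).symm⟩
    have hL : #(z '' T) < μ := mk_image_le.trans_lt hT
    refine ⟨range a, hA, qsp_fibres (π := π)
      ((continuous_evn.comp continuous_subtype_val).subtype_mk _) (hQ _ hL) (hB _ hL) ?_⟩
    rintro ⟨_, s, hs, rfl⟩
    refine qsp_small hQ (e := fun x => (x.1.1 : C))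
      (continuous_subtype_val.comp continuous_subtype_val)
      (fun _ _ h => Subtype.ext (Subtype.ext h)) (lt_of_le_of_lt ?_ (hIic s))
    have h1 : ∀ x : π ⁻¹' {⟨z s, s, hs, rfl⟩}, idx x ≤ s := by
      intro x
      have h2 : evn x.1 = z s := congrArg Subtype.val x.2
      rw [hev] at h2
      exact (ht2 _).le.trans (z.injective h2).le
    refine mk_le_of_injective (f := fun x => (⟨idx x.1, h1 x⟩ : Iic s)) fun x x' h => ?_
    have h2 : idx x = idx x' := congrArg Subtype.val h
    refine Subtype.ext (Subtype.ext ?_)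
    rw [← hidx, ← hidx, h2]

lemma q0_nonempty : {c | ∃ A : Set C, #A = c ∧ ¬ IsQSet A}.Nonempty := by
  by_contra h
  have h1 : ∀ B : Set C, QSp B := by
    intro B
    by_contra hB
    exact h ⟨_, B, rfl, fun h' => hB ((qsp_iff B).1 h')⟩
  obtain ⟨g, hg⟩ := bdd_of_Q (ℕ → ℕ) (fun B _ => h1 B) id
  obtain ⟨n, hn⟩ := (hg fun k => g k + 1).exists
  simp at hn

lemma qsp_of_lt_q0 {B : Set C} (h : #B < q0) : QSp B := by
  by_contra hB
  exact (not_le.2 h) (csInf_le' ⟨B, rfl, fun h' => hB ((qsp_iff B).1 h')⟩)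

lemma aleph0_lt_q0 : ℵ₀ < q0 := by
  obtain ⟨A, hA, hn⟩ := csInf_mem q0_nonempty
  by_contra h
  apply hn
  rw [qsp_iff]
  have : Countable A := mk_le_aleph0_iff.1 (hA.le.trans (not_lt.1 h))
  intro S
  rw [← iUnion_of_singleton_coe S]
  exact Fs.iUnion fun _ => Fs.of_closed isClosed_singleton

theorem not_ba_q0 : ¬ BAminus q0 := by
  intro hBA
  obtain ⟨A, hA, hn⟩ := csInf_mem q0_nonempty
  have hc : q0 ≤ #C := hA.ge.trans (mk_set_le A)
  obtain ⟨Y, hY, hq⟩ := exists_Q aleph0_lt_q0 hc hBA fun B hB => qsp_of_lt_q0 hB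
  exact hn ((qsp_iff A).2 (transfer aleph0_lt_q0.le hBA hA.le hY hq))

theorem main (l : Cardinal.{0}) : (∀ κ, ℵ₀ < κ → κ ≤ l → BAminus κ) ↔ l < q0 := by
  constructor
  · intro h
    by_contra hl
    exact not_ba_q0 (h _ aleph0_lt_q0 (not_lt.1 hl))
  · intro h κ h1 h2
    exact ba_of_Q h1 fun B hB => qsp_of_lt_q0 ((hB.trans h2).trans_lt h)

end Pool.Agent.Lib.MP_baa34e_lc.H81
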