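import Pool.Agent.Lib.MP_baa34e_lc.H81.Basic

namespace Pool.Agent.Lib.MP_baa34e_lc.H81

open Cardinal Filter Set TopologicalSpace Topology

section
variable {X Y : Type} [TopologicalSpace X] [TopologicalSpace Y]

def cyl (e : X → C) (x : X) (n : ℕ) : Set X := {y | ∀ i < n, e y i = e x i}

lemma isOpen_cyl {e : X → C} (he : Continuous e) (x : X) (n : ℕ) : IsOpen (cyl e x n) := by
  have : cyl e x n = ⋂ i ∈ Finset.range n, (fun y => e y i) ⁻¹' {e x i} := by
    ext y; simp [cyl]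
  rw [this]
  exact isOpen_biInter_finset fun i _ =>
    (isOpen_discrete _).preimage ((continuous_apply i).comp he)

lemma exists_cyl_disjoint {e : X → C} (he : IsInducing e) {F : Set X} (hF : IsClosed F) {x : X}
    (hx : x ∉ F) : ∃ n, Disjoint (cyl e x n) F := by
  obtain ⟨U, hU, hUF⟩ := he.isOpen_iff.1 hF.isOpen_compl
  have hxU : e x ∈ U := by
    have : x ∈ e ⁻¹' U := hUF ▸ hx
    exact this
  obtain ⟨N, hN⟩ := exists_cyl hU hxU
  refine ⟨N, Set.disjoint_left.2 fun y hy hyF => ?_⟩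
  have : y ∈ e ⁻¹' U := hN _ hy
  rw [hUF] at this
  exact this hyF

omit [TopologicalSpace X] in
lemma cyl_eq {e : X → C} {x y : X} {n m : ℕ} (h : y ∈ cyl e x n) (hm : m ≤ n) :
    cyl e y m = cyl e x m := by
  ext z
  simp only [cyl, mem_ofPred_eq] at h ⊢
  refine forall_congr' fun i => forall_congr' fun hi => ?_
  rw [h i (by omega)]

omit [TopologicalSpace X] in
lemma cyl_anti (e : X → C) (x : X) {n m : ℕ} (hm : m ≤ n) : cyl e x n ⊆ cyl e x m :=
  fun _ hz i hi => hz i (by omega)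

omit [TopologicalSpace X] in
lemma self_mem_cyl (e : X → C) (x : X) (n : ℕ) : x ∈ cyl e x n := fun _ _ => rfl

lemma sep_clopen {e : X → C} (he : IsInducing e) {F0 F1 : Set X} (h0 : IsClosed F0)
    (h1 : IsClosed F1) (hd : Disjoint F0 F1) :
    ∃ W : Set X, IsClopen W ∧ F0 ⊆ W ∧ F1 ⊆ Wᶜ := by
  let W : Set X := {x | ∃ n, Disjoint (cyl e x n) F1 ∧ ¬ Disjoint (cyl e x n) F0}
  have hsub : F0 ⊆ W := by
    intro x hx
    obtain ⟨n, hn⟩ := exists_cyl_disjoint he h1 (Set.disjoint_left.1 hd hx)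
    exact ⟨n, hn, fun h => Set.disjoint_left.1 h (self_mem_cyl e x n) hx⟩
  refine ⟨W, ⟨?_, ?_⟩, hsub, ?_⟩
  · rw [← isOpen_compl_iff, isOpen_iff_forall_mem_open]
    intro x hx
    obtain ⟨n0, hn0⟩ := exists_cyl_disjoint he h0 fun h => hx (hsub h)
    refine ⟨cyl e x n0, ?_, isOpen_cyl he.continuous x n0, self_mem_cyl e x n0⟩
    rintro y hy ⟨n, hn1, hn2⟩
    by_cases hn : n ≤ n0
    · rw [cyl_eq hy hn] at hn1 hn2
      exact hx ⟨n, hn1, hn2⟩
    · apply hn2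
      refine hn0.mono_left ?_
      rw [← cyl_eq hy le_rfl]
      exact cyl_anti e y (by omega)
  · rw [isOpen_iff_forall_mem_open]
    rintro x ⟨n, hn1, hn2⟩
    refine ⟨cyl e x n, fun y hy => ⟨n, ?_, ?_⟩, isOpen_cyl he.continuous x n, self_mem_cyl e x n⟩
    · rwa [cyl_eq hy le_rfl]
    · rwa [cyl_eq hy le_rfl]
  · rintro x hx ⟨n, hn1, -⟩
    exact Set.disjoint_left.1 hn1 (self_mem_cyl e x n) hx

structure Good (κ : Cardinal.{0}) (X : Type) [TopologicalSpace X] : Prop where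
  unc : ℵ₀ < κ
  emb : ∃ e : X → C, IsEmbedding e
  q : QSp X
  bdd : Bdd X
  card : ∀ U : Set X, IsOpen U → U.Nonempty → #U = κ
  ne : Nonempty X

lemma Good.infinite {κ : Cardinal.{0}} (h : Good κ X) {U : Set X} (hU : IsOpen U)
    (hne : U.Nonempty) : U.Infinite := by
  rw [← infinite_coe_iff, Cardinal.infinite_iff, h.card U hU hne]
  exact h.unc.le

lemma Good.nwd_cover {κ : Cardinal.{0}} (h : Good κ X) :
    ∃ N : ℕ → Set X, Monotone N ∧ (∀ n, IsClosed (N n)) ∧ (∀ n, Dense (N n)ᶜ) ∧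
      ∀ x, ∃ n, x ∈ N n := by
  obtain ⟨e, he⟩ := h.emb
  have := he.secondCountableTopology
  have := he.t2Space
  have := h.ne
  obtain ⟨d, hd⟩ := exists_dense_seq X
  obtain ⟨F, hF, hFe⟩ := (h.q (range d)ᶜ).exists_nat
  refine ⟨fun m => ⋃ n ∈ Finset.range (m + 1), (F n ∪ {d n}), ?_, ?_, ?_, ?_⟩
  · intro m m' hm x hx
    simp only [mem_iUnion, Finset.mem_range] at hx ⊢
    obtain ⟨n, hn, hx⟩ := hx
    exact ⟨n, by omega, hx⟩
  · intro m
    exact isClosed_biUnion_finset fun n _ => (hF n).union isClosed_singleton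
  · intro m
    rw [dense_iff_inter_open]
    intro U hU hne
    have hfin : (d '' {n | n < m + 1}).Finite := (finite_lt_nat _).image d
    have hne' : (U \ d '' {n | n < m + 1}).Nonempty :=
      ((h.infinite hU hne).sdiff hfin).nonempty
    obtain ⟨k, hk⟩ := hd.exists_mem_open (hU.sdiff hfin.isClosed) hne'
    refine ⟨d k, hk.1, fun hx => ?_⟩
    simp only [mem_iUnion, Finset.mem_range] at hx
    obtain ⟨n, hn, hx | hx⟩ := hx
    · have : d k ∈ ⋃ n, F n := mem_iUnion.2 ⟨n, hx⟩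
      rw [← hFe] at this
      exact this (mem_range_self k)
    · exact hk.2 ⟨n, hn, (mem_singleton_iff.1 hx).symm⟩
  · intro x
    by_cases hx : x ∈ range d
    · obtain ⟨n, rfl⟩ := hx
      refine ⟨n, ?_⟩
      simp only [mem_iUnion, Finset.mem_range]
      exact ⟨n, by omega, Or.inr rfl⟩
    · have : x ∈ ⋃ n, F n := hFe ▸ hx
      obtain ⟨n, hn⟩ := mem_iUnion.1 this
      refine ⟨n, ?_⟩
      simp only [mem_iUnion, Finset.mem_range]
      exact ⟨n, by omega, Or.inl hn⟩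

lemma Good.sigma {κ : Cardinal.{0}} (hX : Good κ X) (hY : Good κ Y) (f : X → Y) :
    ∃ P : ℕ → Set X, Monotone P ∧ (∀ n, IsClosed (P n)) ∧ (∀ n, Dense (P n)ᶜ) ∧
      (∀ x, ∃ n, x ∈ P n) ∧ ∀ n, ContinuousOn f (P n) := by
  obtain ⟨e, he⟩ := hY.emb
  obtain ⟨P, h1, h2, h3, h4⟩ := sigma_cont hX.q hX.bdd (e ∘ f)
  obtain ⟨N, k1, k2, k3, k4⟩ := hX.nwd_cover
  refine ⟨fun n => P n ∩ N n, fun n m h => inter_subset_inter (h1 h) (k1 h),
    fun n => (h2 n).inter (k2 n),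
    fun n => (k3 n).mono (compl_subset_compl.2 inter_subset_right), fun x => ?_,
    fun n => (he.isInducing.continuousOn_iff.2 (h4 n)).mono inter_subset_left⟩
  obtain ⟨a, ha⟩ := h3 x
  obtain ⟨b, hb⟩ := k4 x
  exact ⟨max a b, h1 (le_max_left _ _) ha, k1 (le_max_right _ _) hb⟩

end

/-- a matched pair of clopen sets with a promised homeomorphism of closed nowhere dense parts -/
structure St (X Y : Type) [TopologicalSpace X] [TopologicalSpace Y] where
  U : Set X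
  V : Set Y
  E : Set X
  E' : Set Y
  φ : X → Y
  ψ : Y → X
  hU : IsClopen U
  hV : IsClopen V
  hne : U.Nonempty ↔ V.Nonempty
  hE : IsClosed E
  hE' : IsClosed E'
  dE : Dense Eᶜ
  dE' : Dense E'ᶜ
  sE : E ⊆ U
  sE' : E' ⊆ V
  cφ : ContinuousOn φ E
  cψ : ContinuousOn ψ E'
  mφ : ∀ x ∈ E, φ x ∈ E'
  mψ : ∀ y ∈ E', ψ y ∈ E
  lφ : ∀ x ∈ E, ψ (φ x) = x
  lψ : ∀ y ∈ E', φ (ψ y) = y

section
variable {X Y : Type} [TopologicalSpace X] [TopologicalSpace Y]

def St.swap (s : St X Y) : St Y X :=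
  ⟨s.V, s.U, s.E', s.E, s.ψ, s.φ, s.hV, s.hU, s.hne.symm, s.hE', s.hE, s.dE', s.dE, s.sE', s.sE,
    s.cψ, s.cφ, s.mψ, s.mφ, s.lψ, s.lφ⟩

def side (W : Set X) (b : Bool) : Set X := {x | x ∈ W ↔ b = true}

omit [TopologicalSpace X] in
lemma side_true (W : Set X) : side W true = W := by ext; simp [side]

omit [TopologicalSpace X] in
lemma side_false (W : Set X) : side W false = Wᶜ := by ext; simp [side]

lemma isClopen_side {W : Set X} (hW : IsClopen W) (b : Bool) : IsClopen (side W b) := by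
  cases b
  · rw [side_false]; exact hW.compl
  · rw [side_true]; exact hW

structure Compat (s : St X Y) (W : Set X) (W' : Set Y) : Prop where
  hW : IsClopen W
  hW' : IsClopen W'
  hne : ∀ b, (s.U ∩ side W b).Nonempty ↔ (s.V ∩ side W' b).Nonempty
  hm : ∀ x ∈ s.E, (s.φ x ∈ W' ↔ x ∈ W)

lemma Compat.swap {s : St X Y} {W : Set X} {W' : Set Y} (h : Compat s.swap W' W) :
    Compat s W W' := by
  refine ⟨h.hW', h.hW, fun b => (h.hne b).symm, fun x hx => ?_⟩
  have := h.hm (s.φ x) (s.mφ x hx)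
  change s.ψ (s.φ x) ∈ W ↔ _ at this
  rw [s.lφ x hx] at this
  exact this.symm

def St.restrict (s : St X Y) {W : Set X} {W' : Set Y} (h : Compat s W W') (b : Bool) : St X Y where
  U := s.U ∩ side W b
  V := s.V ∩ side W' b
  E := s.E ∩ side W b
  E' := s.E' ∩ side W' b
  φ := s.φ
  ψ := s.ψ
  hU := s.hU.inter (isClopen_side h.hW b)
  hV := s.hV.inter (isClopen_side h.hW' b)
  hne := h.hne b
  hE := s.hE.inter (isClopen_side h.hW b).isClosed
  hE' := s.hE'.inter (isClopen_side h.hW' b).isClosed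
  dE := s.dE.mono (compl_subset_compl.2 inter_subset_left)
  dE' := s.dE'.mono (compl_subset_compl.2 inter_subset_left)
  sE := inter_subset_inter_left _ s.sE
  sE' := inter_subset_inter_left _ s.sE'
  cφ := s.cφ.mono inter_subset_left
  cψ := s.cψ.mono inter_subset_left
  mφ := fun x hx => ⟨s.mφ x hx.1, (h.hm x hx.1).trans hx.2⟩
  mψ := fun y hy => ⟨s.mψ y hy.1, by
    have h1 := h.hm _ (s.mψ y hy.1)
    rw [s.lψ y hy.1] at h1
    exact h1.symm.trans hy.2⟩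
  lφ := fun x hx => s.lφ x hx.1
  lψ := fun y hy => s.lψ y hy.1

lemma exists_compat {κ : Cardinal.{0}} (hY : Good κ Y) (s : St X Y) {W : Set X}
    (hW : IsClopen W) : ∃ W' : Set Y, Compat s W W' := by
  obtain ⟨e, he⟩ := hY.emb
  have := he.t2Space
  by_cases h1 : (s.U ∩ W).Nonempty
  swap
  · refine ⟨∅, hW, isClopen_empty, fun b => ?_, fun x hx => ?_⟩
    · cases b
      · simp only [side_false, compl_empty, inter_univ]
        rw [← s.hne]
        exact ⟨fun h => h.mono inter_subset_left, fun ⟨x, hx⟩ => ⟨x, hx, fun hxW => h1 ⟨x, hx, hxW⟩⟩⟩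
      · simp only [side_true, inter_empty, Set.not_nonempty_empty, iff_false]
        exact h1
    · simp only [mem_empty_iff_false, false_iff]
      exact fun hxW => h1 ⟨x, s.sE hx, hxW⟩
  by_cases h2 : (s.U ∩ Wᶜ).Nonempty
  swap
  · refine ⟨univ, hW, isClopen_univ, fun b => ?_, fun x hx => ?_⟩
    · cases b
      · simp only [side_false, compl_univ, inter_empty, Set.not_nonempty_empty, iff_false]
        exact h2
      · simp only [side_true, inter_univ]
        rw [← s.hne]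
        exact ⟨fun h => h.mono inter_subset_left, fun _ => h1⟩
    · simp only [mem_univ, true_iff]
      by_contra hxW
      exact h2 ⟨x, s.sE hx, hxW⟩
  have hVne : s.V.Nonempty := s.hne.1 (h1.mono inter_subset_left)
  have hopen : IsOpen (s.V ∩ s.E'ᶜ) := s.hV.isOpen.inter s.hE'.isOpen_compl
  have hinf : (s.V ∩ s.E'ᶜ).Infinite :=
    hY.infinite hopen (s.dE'.inter_open_nonempty _ s.hV.isOpen hVne)
  obtain ⟨v0, hv0, v1, hv1, hne⟩ := hinf.nontrivial
  have c0 : IsClosed (s.E' ∩ s.ψ ⁻¹' W ∪ {v0}) :=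
    (s.cψ.preimage_isClosed_of_isClosed s.hE' hW.isClosed).union isClosed_singleton
  have c1 : IsClosed (s.E' ∩ s.ψ ⁻¹' Wᶜ ∪ {v1}) :=
    (s.cψ.preimage_isClosed_of_isClosed s.hE' hW.compl.isClosed).union isClosed_singleton
  have hd : Disjoint (s.E' ∩ s.ψ ⁻¹' W ∪ {v0}) (s.E' ∩ s.ψ ⁻¹' Wᶜ ∪ {v1}) := by
    rw [Set.disjoint_left]
    rintro y (hy | hy) (hy' | hy')
    · exact hy'.2 hy.2
    · exact hv1.2 (hy' ▸ hy.1)
    · exact hv0.2 (hy ▸ hy'.1)
    · exact hne (hy.symm.trans hy')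
  obtain ⟨W', hW', k0, k1⟩ := sep_clopen he.isInducing c0 c1 hd
  refine ⟨W', hW, hW', fun b => ?_, fun x hx => ?_⟩
  · cases b
    · simp only [side_false]
      exact ⟨fun _ => ⟨v1, hv1.1, k1 (Or.inr rfl)⟩, fun _ => h2⟩
    · simp only [side_true]
      exact ⟨fun _ => ⟨v0, hv0.1, k0 (Or.inr rfl)⟩, fun _ => h1⟩
  · constructor
    · intro h
      by_contra hxW
      refine k1 (Or.inl ⟨s.mφ x hx, ?_⟩) h
      change s.ψ (s.φ x) ∉ W
      rwa [s.lφ x hx]
    · intro h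
      refine k0 (Or.inl ⟨s.mφ x hx, ?_⟩)
      change s.ψ (s.φ x) ∈ W
      rwa [s.lφ x hx]

lemma exists_fill {κ : Cardinal.{0}} (hX : Good κ X) (hY : Good κ Y) (s : St X Y) :
    ∃ t : ℕ → St X Y, (∀ m, (t m).U = s.U ∧ (t m).V = s.V) ∧
      (∀ x ∈ s.U, ∀ᶠ m in atTop, x ∈ (t m).E) ∧ (∀ y ∈ s.V, ∀ᶠ m in atTop, y ∈ (t m).E') := by
  classical
  have hc : #s.U = #s.V := by
    by_cases h : s.U.Nonempty
    · rw [hX.card _ s.hU.isOpen h, hY.card _ s.hV.isOpen (s.hne.1 h)]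
    · have h' : ¬ s.V.Nonempty := fun h' => h (s.hne.2 h')
      rw [not_nonempty_iff_eq_empty] at h h'
      simp [h, h']
  obtain ⟨f⟩ := Cardinal.eq.1 hc
  obtain ⟨x0⟩ := hX.ne
  obtain ⟨y0⟩ := hY.ne
  let φ : X → Y := fun x => if h : x ∈ s.U then (f ⟨x, h⟩ : Y) else y0
  let ψ : Y → X := fun y => if h : y ∈ s.V then (f.symm ⟨y, h⟩ : X) else x0
  have mφ : ∀ x ∈ s.U, φ x ∈ s.V := fun x hx => by simp [φ, hx]
  have mψ : ∀ y ∈ s.V, ψ y ∈ s.U := fun y hy => by simp [ψ, hy]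
  have lφ : ∀ x ∈ s.U, ψ (φ x) = x := fun x hx => by simp [φ, ψ, hx]
  have lψ : ∀ y ∈ s.V, φ (ψ y) = y := fun y hy => by simp [φ, ψ, hy]
  obtain ⟨P, p1, p2, p3, p4, p5⟩ := hX.sigma hY φ
  obtain ⟨R, r1, r2, r3, r4, r5⟩ := hY.sigma hX ψ
  refine ⟨fun m =>
    { U := s.U, V := s.V
      E := s.U ∩ (P m ∩ φ ⁻¹' R m), E' := s.V ∩ (R m ∩ ψ ⁻¹' P m)
      φ := φ, ψ := ψ, hU := s.hU, hV := s.hV, hne := s.hne
      hE := s.hU.isClosed.inter ((p5 m).preimage_isClosed_of_isClosed (p2 m) (r2 m))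
      hE' := s.hV.isClosed.inter ((r5 m).preimage_isClosed_of_isClosed (r2 m) (p2 m))
      dE := (p3 m).mono (compl_subset_compl.2 fun x hx => hx.2.1)
      dE' := (r3 m).mono (compl_subset_compl.2 fun x hx => hx.2.1)
      sE := inter_subset_left, sE' := inter_subset_left
      cφ := (p5 m).mono fun x hx => hx.2.1
      cψ := (r5 m).mono fun x hx => hx.2.1
      mφ := fun x hx => ⟨mφ x hx.1, hx.2.2, by
        change ψ (φ x) ∈ P m
        rw [lφ x hx.1]; exact hx.2.1⟩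
      mψ := fun y hy => ⟨mψ y hy.1, hy.2.2, by
        change φ (ψ y) ∈ R m
        rw [lψ y hy.1]; exact hy.2.1⟩
      lφ := fun x hx => lφ x hx.1
      lψ := fun y hy => lψ y hy.1 }, fun m => ⟨rfl, rfl⟩, fun x hx => ?_, fun y hy => ?_⟩
  · obtain ⟨a, ha⟩ := p4 x
    obtain ⟨b, hb⟩ := r4 (φ x)
    exact eventually_atTop.2 ⟨max a b, fun m hm =>
      ⟨hx, p1 ((le_max_left _ _).trans hm) ha, r1 ((le_max_right _ _).trans hm) hb⟩⟩
  · obtain ⟨a, ha⟩ := r4 y
    obtain ⟨b, hb⟩ := p4 (ψ y)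
    exact eventually_atTop.2 ⟨max a b, fun m hm =>
      ⟨hy, r1 ((le_max_left _ _).trans hm) ha, p1 ((le_max_right _ _).trans hm) hb⟩⟩

end

end Pool.Agent.Lib.MP_baa34e_lc.H81
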