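import Pool.Agent.Lib.MP_baa34e_lc.H81.KR

namespace Pool.Agent.Lib.MP_baa34e_lc.H81

open Cardinal Filter Set TopologicalSpace Topology

abbrev Nd := List (ℕ × Bool)

def nd (g : Nd → ℕ) (β : C) : ℕ → Nd
  | 0 => []
  | n + 1 => (g (nd g β n), β n) :: nd g β n

lemma nd_length (g : Nd → ℕ) (β : C) (n : ℕ) : (nd g β n).length = n := by
  induction n with
  | zero => rfl
  | succ n ih => simp [nd, ih]

section
variable {X Y : Type} [TopologicalSpace X] [TopologicalSpace Y]

structure Sys (e : X → C) (U E : Nd → Set X) (M W : Nd → ℕ → Set X) : Prop where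
  U0 : U [] = Set.univ
  Us : ∀ σ m b, U ((m, b) :: σ) = U σ ∩ side (W σ m) b
  Es : ∀ σ m b, E ((m, b) :: σ) = M σ m ∩ side (W σ m) b
  hU : ∀ σ, IsOpen (U σ)
  bit : ∀ k, ∃ n, ∀ σ m, σ.length = n → W σ m = {x | e x k = true}
  hE : ∀ σ, IsClosed (E σ)
  sE : ∀ σ, E σ ⊆ U σ
  keep : ∀ σ m, (E σ).Nonempty → M σ m = E σ
  fill : ∀ σ, E σ = ∅ → ∀ x ∈ U σ, ∀ᶠ m in atTop, x ∈ M σ m

variable {e : X → C} {U E : Nd → Set X} {M W : Nd → ℕ → Set X}

lemma Sys.anti (h : Sys e U E M W) (g : Nd → ℕ) (β : C) : Antitone fun n => U (nd g β n) := by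
  refine antitone_nat_of_succ_le fun n => ?_
  simp only [nd, h.Us]
  exact inter_subset_left

lemma Sys.side_iff (h : Sys e U E M W) {g : Nd → ℕ} {β : C} {n : ℕ} {x : X}
    (hx : x ∈ U (nd g β (n + 1))) : x ∈ W (nd g β n) (g (nd g β n)) ↔ β n = true := by
  simp only [nd, h.Us] at hx
  exact hx.2

lemma Sys.uniq (h : Sys e U E M W) {g : Nd → ℕ} {β β' : C} {x : X} (n : ℕ)
    (hx : x ∈ U (nd g β n)) (hx' : x ∈ U (nd g β' n)) :
    nd g β n = nd g β' n ∧ ∀ i < n, β i = β' i := by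
  induction n with
  | zero => exact ⟨rfl, fun i hi => absurd hi (Nat.not_lt_zero i)⟩
  | succ n ih =>
    obtain ⟨h1, h2⟩ := ih (h.anti g β (Nat.le_succ n) hx) (h.anti g β' (Nat.le_succ n) hx')
    have k1 := h.side_iff hx
    have k2 := h.side_iff hx'
    rw [h1] at k1
    have hb : β n = β' n := by
      have := k1.symm.trans k2
      cases hβ : β n <;> cases hβ' : β' n <;> simp_all
    refine ⟨by simp only [nd, h1, hb], fun i hi => ?_⟩
    rcases Nat.lt_succ_iff_lt_or_eq.1 hi with hi | rfl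
    · exact h2 i hi
    · exact hb

lemma Sys.exists_branch (h : Sys e U E M W) (g : Nd → ℕ) (x : X) :
    ∃ β : C, ∀ n, x ∈ U (nd g β n) := by
  classical
  let σ : ℕ → Nd := fun n => Nat.rec [] (fun _ τ => (g τ, decide (x ∈ W τ (g τ))) :: τ) n
  let β : C := fun n => decide (x ∈ W (σ n) (g (σ n)))
  have h1 : ∀ n, nd g β n = σ n := by
    intro n
    induction n with
    | zero => rfl
    | succ n ih => simp only [nd, ih]; rfl
  refine ⟨β, fun n => ?_⟩
  induction n with
  | zero => simp [nd, h.U0]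
  | succ n ih =>
    simp only [nd, h.Us]
    refine ⟨ih, ?_⟩
    rw [h1]
    simp [side, β]

lemma Sys.bit_eq (h : Sys e U E M W) (g : Nd → ℕ) (k : ℕ) :
    ∃ n, ∀ β x, x ∈ U (nd g β (n + 1)) → e x k = β n := by
  obtain ⟨n, hn⟩ := h.bit k
  refine ⟨n, fun β x hx => ?_⟩
  have := h.side_iff hx
  rw [hn _ _ (nd_length g β n)] at this
  simp only [mem_ofPred_eq] at this
  cases h1 : e x k <;> cases h2 : β n <;> simp_all

lemma Sys.embedding (h : Sys e U E M W) (he : IsEmbedding e) {g : Nd → ℕ} {β : X → C}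
    (hβ : ∀ x n, x ∈ U (nd g (β x) n)) : IsEmbedding β := by
  choose n hn using h.bit_eq g
  have hc : Continuous β := by
    refine continuous_pi fun i => continuous_iff_continuousAt.2 fun x => ?_
    refine (continuousAt_const (y := β x i)).congr ?_
    filter_upwards [(h.hU _).mem_nhds (hβ x (i + 1))] with y hy
    exact (h.uniq (i + 1) hy (hβ y (i + 1))).2 i (Nat.lt_succ_self i)
  have hg : Continuous fun (b : C) (k : ℕ) => b (n k) :=
    continuous_pi fun k => continuous_apply _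
  refine IsEmbedding.of_comp hc hg ?_
  have : ((fun (b : C) (k : ℕ) => b (n k)) ∘ β) = e := by
    funext x k
    exact (hn k (β x) x (hβ x _)).symm
  rwa [this]

lemma Sys.exists_dom (h : Sys e U E M W) (hb : Bdd X) :
    ∃ g0 : Nd → ℕ, ∀ g : Nd → ℕ, (∀ σ, g0 σ ≤ g σ) → ∀ x, ∃ n0, ∀ σ : Nd, n0 ≤ σ.length →
      E σ = ∅ → x ∈ U σ → x ∈ M σ (g σ) := by
  have h1 : ∀ x σ, ∃ i, E σ = ∅ → x ∈ U σ → ∀ m, i ≤ m → x ∈ M σ m := by
    intro x σ
    by_cases hh : E σ = ∅ ∧ x ∈ U σ
    · obtain ⟨i, hi⟩ := eventually_atTop.1 (h.fill σ hh.1 x hh.2)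
      exact ⟨i, fun _ _ => hi⟩
    · exact ⟨0, fun a b => absurd ⟨a, b⟩ hh⟩
  choose i hi using h1
  obtain ⟨g0, hg0⟩ := hb.countable i
  refine ⟨g0, fun g hg x => ?_⟩
  obtain ⟨n0, hn0⟩ := ((hg0 x).image List.length).bddAbove
  refine ⟨n0 + 1, fun σ hσ h1 h2 => hi x σ h1 h2 _ ?_⟩
  by_contra hlt
  have : σ.length ≤ n0 := hn0 ⟨σ, (hg σ).trans_lt (not_le.1 hlt), rfl⟩
  omega

lemma Sys.capture (h : Sys e U E M W) (he : IsInducing e) {g : Nd → ℕ} {β : C} {x : X}
    (hβ : ∀ n, x ∈ U (nd g β n))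
    (hg : ∃ n0, ∀ σ : Nd, n0 ≤ σ.length → E σ = ∅ → x ∈ U σ → x ∈ M σ (g σ)) :
    ∃ n, x ∈ E (nd g β n) := by
  obtain ⟨n0, hn0⟩ := hg
  by_contra hcon
  push Not at hcon
  have hne : ∀ n, n0 ≤ n → (E (nd g β n)).Nonempty := by
    intro n hn
    by_contra hemp
    rw [not_nonempty_iff_eq_empty] at hemp
    apply hcon (n + 1)
    simp only [nd, h.Es]
    exact ⟨hn0 _ (by rwa [nd_length]) hemp (hβ n), h.side_iff (hβ (n + 1))⟩
  have hsub : ∀ j, E (nd g β (n0 + j)) ⊆ E (nd g β n0) := by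
    intro j
    induction j with
    | zero => exact Subset.rfl
    | succ j ih =>
      refine Subset.trans ?_ ih
      change E (nd g β (n0 + j + 1)) ⊆ _
      simp only [nd, h.Es]
      rw [h.keep _ _ (hne _ (Nat.le_add_right _ _))]
      exact inter_subset_left
  obtain ⟨K, hK⟩ := exists_cyl_disjoint he (h.hE _) (hcon n0)
  choose n hn using h.bit_eq g
  obtain ⟨z, hz⟩ := hne (n0 + ((Finset.range K).sup n + 1)) (Nat.le_add_right _ _)
  refine Set.disjoint_left.1 hK (fun k hk => ?_) (hsub _ hz)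
  have hle : n k + 1 ≤ n0 + ((Finset.range K).sup n + 1) := by
    have := Finset.le_sup (f := n) (Finset.mem_range.2 hk)
    omega
  rw [hn k β z (h.anti g β hle (h.sE _ hz)), hn k β x (hβ _)]

end

section
variable {X Y : Type} [TopologicalSpace X] [TopologicalSpace Y]

theorem homeo_of_good {κ : Cardinal.{0}} (hX : Good κ X) (hY : Good κ Y) :
    Nonempty (X ≃ₜ Y) := by
  classical
  obtain ⟨e, he⟩ := hX.emb
  obtain ⟨e', he'⟩ := hY.emb
  obtain ⟨x0⟩ := hX.ne
  obtain ⟨y0⟩ := hY.ne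
  have clo : ∀ k, IsClopen {x | e x k = true} := fun k =>
    (isClopen_discrete {true}).preimage ((continuous_apply k).comp he.continuous)
  have clo' : ∀ k, IsClopen {y | e' y k = true} := fun k =>
    (isClopen_discrete {true}).preimage ((continuous_apply k).comp he'.continuous)
  have hsp : ∀ (s : St X Y) (n : ℕ), ∃ (W : Set X) (W' : Set Y), Compat s W W' ∧
      (∀ k, n = 2 * k → W = {x | e x k = true}) ∧
      (∀ k, n = 2 * k + 1 → W' = {y | e' y k = true}) := by
    intro s n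
    rcases Nat.even_or_odd' n with ⟨k, rfl | rfl⟩
    · obtain ⟨W', hW'⟩ := exists_compat hY s (clo k)
      refine ⟨_, W', hW', fun j hj => ?_, fun j hj => by omega⟩
      obtain rfl : k = j := by omega
      rfl
    · obtain ⟨W, hW⟩ := exists_compat hX s.swap (clo' k)
      refine ⟨W, _, hW.swap, fun j hj => by omega, fun j hj => ?_⟩
      obtain rfl : k = j := by omega
      rfl
  choose W W' hc hW hW' using hsp
  have hfl : ∀ s : St X Y, ∃ t : ℕ → St X Y, (∀ m, (t m).U = s.U ∧ (t m).V = s.V) ∧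
      (s.E.Nonempty → ∀ m, t m = s) ∧ (s.E = ∅ →
      (∀ x ∈ s.U, ∀ᶠ m in atTop, x ∈ (t m).E) ∧ (∀ y ∈ s.V, ∀ᶠ m in atTop, y ∈ (t m).E')) := by
    intro s
    by_cases h : s.E.Nonempty
    · exact ⟨fun _ => s, fun _ => ⟨rfl, rfl⟩, fun _ _ => rfl, fun h' => absurd h' h.ne_empty⟩
    · obtain ⟨t, h1, h2⟩ := exists_fill hX hY s
      exact ⟨t, h1, fun h' => absurd h' h, fun _ => h2⟩
  choose t ht1 ht2 ht3 using hfl
  let root : St X Y :=
    { U := univ, V := univ, E := ∅, E' := ∅, φ := fun _ => y0, ψ := fun _ => x0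
      hU := isClopen_univ, hV := isClopen_univ
      hne := ⟨fun _ => ⟨y0, trivial⟩, fun _ => ⟨x0, trivial⟩⟩
      hE := isClosed_empty, hE' := isClosed_empty
      dE := by simp, dE' := by simp
      sE := empty_subset _, sE' := empty_subset _
      cφ := continuousOn_empty _, cψ := continuousOn_empty _
      mφ := fun _ h => h.elim, mψ := fun _ h => h.elim
      lφ := fun _ h => h.elim, lψ := fun _ h => h.elim }
  let ev : Nd → St X Y := fun σ =>
    List.rec root (fun p τ s => (t s p.1).restrict (hc (t s p.1) τ.length) p.2) σ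
  have ev_cons : ∀ m b σ, ev ((m, b) :: σ) =
      (t (ev σ) m).restrict (hc (t (ev σ) m) σ.length) b := fun _ _ _ => rfl
  have hEE : ∀ s : St X Y, s.E.Nonempty ↔ s.E'.Nonempty := fun s =>
    ⟨fun ⟨x, hx⟩ => ⟨_, s.mφ x hx⟩, fun ⟨y, hy⟩ => ⟨_, s.mψ y hy⟩⟩
  have S1 : Sys e (fun σ => (ev σ).U) (fun σ => (ev σ).E) (fun σ m => (t (ev σ) m).E)
      (fun σ m => W (t (ev σ) m) σ.length) :=
    { U0 := rfl
      Us := fun σ m b => by rw [ev_cons, ← (ht1 (ev σ) m).1]; rfl
      Es := fun σ m b => rfl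
      hU := fun σ => (ev σ).hU.isOpen
      bit := fun k => ⟨2 * k, fun σ m h => hW _ _ k h⟩
      hE := fun σ => (ev σ).hE
      sE := fun σ => (ev σ).sE
      keep := fun σ m h => by rw [ht2 _ h m]
      fill := fun σ h => (ht3 _ h).1 }
  have S2 : Sys e' (fun σ => (ev σ).V) (fun σ => (ev σ).E') (fun σ m => (t (ev σ) m).E')
      (fun σ m => W' (t (ev σ) m) σ.length) :=
    { U0 := rfl
      Us := fun σ m b => by rw [ev_cons, ← (ht1 (ev σ) m).2]; rfl
      Es := fun σ m b => rfl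
      hU := fun σ => (ev σ).hV.isOpen
      bit := fun k => ⟨2 * k + 1, fun σ m h => hW' _ _ k h⟩
      hE := fun σ => (ev σ).hE'
      sE := fun σ => (ev σ).sE'
      keep := fun σ m h => by rw [ht2 _ ((hEE _).2 h) m]
      fill := fun σ h => (ht3 _ (by
        rw [← not_nonempty_iff_eq_empty, hEE, not_nonempty_iff_eq_empty]; exact h)).2 }
  obtain ⟨g1, hg1⟩ := S1.exists_dom hX.bdd
  obtain ⟨g2, hg2⟩ := S2.exists_dom hY.bdd
  let g : Nd → ℕ := fun σ => max (g1 σ) (g2 σ)
  choose β hβ using S1.exists_branch g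
  choose β' hβ' using S2.exists_branch g
  have e1 := S1.embedding he hβ
  have e2 := S2.embedding he' hβ'
  have hr : range β = range β' := by
    apply Subset.antisymm
    · rintro _ ⟨x, rfl⟩
      obtain ⟨n, hn⟩ := S1.capture he.isInducing (hβ x) (hg1 g (fun _ => le_max_left _ _) x)
      have key : ∀ j, x ∈ (ev (nd g (β x) (n + j))).E ∧
          (ev (nd g (β x) (n + j))).φ x = (ev (nd g (β x) n)).φ x := by
        intro j
        induction j with
        | zero => exact ⟨hn, rfl⟩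
        | succ j ih =>
          have h1 := S1.side_iff (hβ x (n + j + 1))
          change x ∈ (ev (nd g (β x) (n + j + 1))).E ∧ (ev (nd g (β x) (n + j + 1))).φ x = _
          simp only [nd, ev_cons]
          constructor
          · refine ⟨?_, h1⟩
            rw [ht2 _ ⟨x, ih.1⟩]; exact ih.1
          · change (t (ev (nd g (β x) (n + j))) _).φ x = _
            rw [ht2 _ ⟨x, ih.1⟩]; exact ih.2
      have hy : ∀ j, (ev (nd g (β x) n)).φ x ∈ (ev (nd g (β x) j)).V := by
        intro j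
        refine S2.anti g (β x) (Nat.le_add_left j n) ?_
        rw [← (key j).2]
        exact St.sE' _ (St.mφ _ x (key j).1)
      refine ⟨(ev (nd g (β x) n)).φ x, funext fun i => ?_⟩
      exact (S2.uniq (g := g) (i + 1) (hβ' _ (i + 1)) (hy (i + 1))).2 i (Nat.lt_succ_self i)
    · rintro _ ⟨y, rfl⟩
      obtain ⟨n, hn⟩ := S2.capture he'.isInducing (hβ' y) (hg2 g (fun _ => le_max_right _ _) y)
      have key : ∀ j, y ∈ (ev (nd g (β' y) (n + j))).E' ∧
          (ev (nd g (β' y) (n + j))).ψ y = (ev (nd g (β' y) n)).ψ y := by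
        intro j
        induction j with
        | zero => exact ⟨hn, rfl⟩
        | succ j ih =>
          have h1 := S2.side_iff (hβ' y (n + j + 1))
          change y ∈ (ev (nd g (β' y) (n + j + 1))).E' ∧ (ev (nd g (β' y) (n + j + 1))).ψ y = _
          simp only [nd, ev_cons]
          constructor
          · refine ⟨?_, h1⟩
            rw [ht2 _ ((hEE _).2 ⟨y, ih.1⟩)]; exact ih.1
          · change (t (ev (nd g (β' y) (n + j))) _).ψ y = _
            rw [ht2 _ ((hEE _).2 ⟨y, ih.1⟩)]; exact ih.2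
      have hx : ∀ j, (ev (nd g (β' y) n)).ψ y ∈ (ev (nd g (β' y) j)).U := by
        intro j
        refine S1.anti g (β' y) (Nat.le_add_left j n) ?_
        rw [← (key j).2]
        exact St.sE _ (St.mψ _ y (key j).1)
      refine ⟨(ev (nd g (β' y) n)).ψ y, funext fun i => ?_⟩
      exact (S1.uniq (g := g) (i + 1) (hβ _ (i + 1)) (hx (i + 1))).2 i (Nat.lt_succ_self i)
  exact ⟨e1.toHomeomorph.trans ((Homeomorph.setCongr hr).trans e2.toHomeomorph.symm)⟩

end

lemma KDense.card {κ : Cardinal.{0}} {A : Set C} (hA : KDense κ A) : #A = κ := by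
  have := hA univ isOpen_univ univ_nonempty
  rwa [inter_univ] at this

theorem ba_of_Q {κ : Cardinal.{0}} (hκ : ℵ₀ < κ) (h : ∀ B : Set C, #B ≤ κ → QSp B) :
    BAminus κ := by
  have good : ∀ A : Set C, KDense κ A → Good κ A := by
    intro A hA
    refine ⟨hκ, ⟨_, IsEmbedding.subtypeVal⟩, h A hA.card.le, bdd_of_Q _ fun B hB => h B ?_, ?_, ?_⟩
    · exact hB.trans (add_le_of_le hκ.le hA.card.le hκ.le)
    · intro U hU hne
      obtain ⟨V, hV, rfl⟩ := isOpen_induced_iff.1 hU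
      obtain ⟨x, hx⟩ := hne
      rw [← hA V hV ⟨x, hx⟩, ← Subtype.image_preimage_coe,
        mk_image_eq Subtype.val_injective]
    · rw [← mk_ne_zero_iff, hA.card]
      exact (aleph0_pos.trans hκ).ne'
  intro A B hA hB
  exact homeo_of_good (good A hA) (good B hB)

end Pool.Agent.Lib.MP_baa34e_lc.H81
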